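import Mathlib

set_option autoImplicit false

namespace Pool.Agent.Results.MP_bdb63f_co.NoTriple

/-- `(le, I, O)` is an `(s,t)`-triple of `G`. -/
def IsTriple {V : Type} (G : SimpleGraph V) (s t : V) (le : LinearOrder V)
    (I O : SimpleGraph V) : Prop :=
  I ≤ G ∧ O ≤ G ∧ I.IsTree ∧ O.IsTree ∧ (∀ v w, I.Adj v w → ¬ O.Adj v w) ∧
    (∀ v, v ≠ t → ∃ w, I.Adj v w ∧ le.lt v w) ∧
    (∀ v, v ≠ s → ∃ w, O.Adj v w ∧ le.lt w v)

abbrev W (m : ℕ) : Type := Bool ⊕ (Fin (m + 3) × Bool × Fin (m + 3))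

def adj (m : ℕ) : W m → W m → Prop
  | Sum.inl _, Sum.inl _ => False
  | Sum.inl c, Sum.inr x => x.2.1 = c
  | Sum.inr x, Sum.inl c => x.2.1 = c
  | Sum.inr x, Sum.inr y => x.1 = y.1 ∧
      ((x.2.1 = y.2.1 ∧ x.2.2 ≠ y.2.2) ∨ (x.2.1 ≠ y.2.1 ∧ x.2.2 = 0 ∧ y.2.2 = 0))

def gr (m : ℕ) : SimpleGraph (W m) where
  Adj := adj m
  symm := ⟨by
    rintro (a | a) (b | b) h <;> simp only [adj] at h ⊢
    · exact h
    · exact h
    · obtain ⟨h1, h2⟩ := h
      refine ⟨h1.symm, ?_⟩
      rcases h2 with ⟨h2, h3⟩ | ⟨h2, h3, h4⟩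
      · exact Or.inl ⟨h2.symm, h3.symm⟩
      · exact Or.inr ⟨h2.symm, h4, h3⟩⟩
  loopless := ⟨by
    rintro (a | a) h <;> simp [adj] at h⟩

lemma conn_of_root {V : Type} (G : SimpleGraph V) (r : V) (h : ∀ x, G.Reachable x r) :
    G.Connected := by
  haveI : Nonempty V := ⟨r⟩
  exact ⟨fun x y => (h x).trans (h y).symm⟩

lemma edge_conn (m : ℕ) (F : Finset (Sym2 (W m))) (hF : F.card < m + 3) :
    ((gr m).deleteEdges (F : Set (Sym2 (W m)))).Connected := by
  classical
  have h1 : ∀ (i : Fin (m + 3)) (c : Bool) (j : Fin (m + 3)),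
      ((gr m).deleteEdges (F : Set (Sym2 (W m)))).Reachable (Sum.inr (i, c, j)) (Sum.inl c) := by
    intro i c j
    by_contra hn
    have : ∀ k : Fin (m + 3), ∃ e ∈ F, (e = s(Sum.inr (i, c, j), Sum.inr (i, c, k)) ∧ k ≠ j) ∨
        e = s(Sum.inr (i, c, k), Sum.inl c) := by
      intro k
      by_contra hk
      push Not at hk
      have e2 : ((gr m).deleteEdges (F : Set (Sym2 (W m)))).Adj (Sum.inr (i, c, k)) (Sum.inl c) := by
        rw [SimpleGraph.deleteEdges_adj]
        exact ⟨by simp [gr, adj], fun hm => (hk _ hm).2 rfl⟩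
      by_cases hkj : k = j
      · subst hkj; exact hn e2.reachable
      · have e1 : ((gr m).deleteEdges (F : Set (Sym2 (W m)))).Adj (Sum.inr (i, c, j))
            (Sum.inr (i, c, k)) := by
          rw [SimpleGraph.deleteEdges_adj]
          exact ⟨by simp [gr, adj, Ne.symm hkj], fun hm => hkj ((hk _ hm).1 rfl)⟩
        exact hn (e1.reachable.trans e2.reachable)
    choose g hg hg' using this
    have hinj : Function.Injective g := by
      intro k k' hkk
      rcases hg' k with ⟨h, h'⟩ | h <;> rcases hg' k' with ⟨h2, h2'⟩ | h2 <;>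
        rw [h, h2] at hkk <;> simp at hkk
      · rcases hkk with hkk | hkk
        · exact hkk
        · exact absurd hkk.2 h'
      · exact hkk
    have := Finset.card_le_card_of_injOn g (s := Finset.univ) (t := F) (fun k _ => hg k)
      hinj.injOn
    simp at this
    omega
  have h2 : ((gr m).deleteEdges (F : Set (Sym2 (W m)))).Reachable (Sum.inl true) (Sum.inl false) := by
    have : ∃ i : Fin (m + 3), s((Sum.inr (i, true, 0) : W m), Sum.inr (i, false, 0)) ∉ F := by
      by_contra hn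
      push Not at hn
      have := Finset.card_le_card_of_injOn
        (fun i : Fin (m + 3) => s((Sum.inr (i, true, 0) : W m), Sum.inr (i, false, 0)))
        (s := Finset.univ) (t := F) (fun k _ => hn k) (by
          intro k _ k' _ hkk
          simp at hkk
          exact hkk)
      simp at this
      omega
    obtain ⟨i, hi⟩ := this
    have e1 : ((gr m).deleteEdges (F : Set (Sym2 (W m)))).Adj (Sum.inr (i, true, 0))
        (Sum.inr (i, false, 0)) := by
      rw [SimpleGraph.deleteEdges_adj]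
      exact ⟨by simp [gr, adj], hi⟩
    exact (h1 i true 0).symm.trans (e1.reachable.trans (h1 i false 0))
  apply conn_of_root _ (Sum.inl false)
  rintro (c | ⟨i, c, j⟩)
  · cases c
    · exact SimpleGraph.Reachable.refl _
    · exact h2
  · cases c
    · exact h1 i false j
    · exact (h1 i true j).trans h2

lemma vert_conn (m : ℕ) (v : W m) : ((gr m).induce ({v}ᶜ : Set (W m))).Connected := by
  have st : ∀ (x y : W m) (hx : x ∈ ({v}ᶜ : Set (W m))) (hy : y ∈ ({v}ᶜ : Set (W m))),
      adj m x y → ((gr m).induce ({v}ᶜ : Set (W m))).Reachable ⟨x, hx⟩ ⟨y, hy⟩ := by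
    intro x y hx hy h
    exact SimpleGraph.Adj.reachable h
  rcases v with c | ⟨i0, c0, j0⟩
  · apply conn_of_root _ ⟨Sum.inl (!c), by simp⟩
    rintro ⟨(d | ⟨i, d, j⟩), hx⟩
    · have : d = !c := by
        cases c <;> cases d <;> simp at hx ⊢
      subst this
      exact SimpleGraph.Reachable.refl _
    · by_cases hd : d = !c
      · exact st _ _ _ _ (by simp [adj, hd])
      · have hdc : d = c := by cases c <;> cases d <;> simp at hd ⊢
        subst hdc
        have a2 := st (Sum.inr (i, d, 0)) (Sum.inr (i, !d, 0)) (by simp) (by simp)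
          (by simp [adj])
        have a3 := st (Sum.inr (i, !d, 0)) (Sum.inl (!d)) (by simp) (by simp) (by simp [adj])
        by_cases hj : j = 0
        · subst hj; exact a2.trans a3
        · exact (st _ (Sum.inr (i, d, 0)) hx (by simp) (by simp [adj, hj])).trans (a2.trans a3)
  · obtain ⟨i, hi⟩ := exists_ne i0
    have hb : ((gr m).induce ({Sum.inr (i0, c0, j0)}ᶜ : Set (W m))).Reachable
        ⟨Sum.inl true, by simp⟩ ⟨Sum.inl false, by simp⟩ := by
      have a1 := st (Sum.inl true) (Sum.inr (i, true, 0)) (by simp) (by simp [hi])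
        (by simp [adj])
      have a2 := st (Sum.inr (i, true, 0)) (Sum.inr (i, false, 0)) (by simp [hi]) (by simp [hi])
        (by simp [adj])
      have a3 := st (Sum.inr (i, false, 0)) (Sum.inl false) (by simp [hi]) (by simp)
        (by simp [adj])
      exact a1.trans (a2.trans a3)
    apply conn_of_root _ ⟨Sum.inl false, by simp⟩
    rintro ⟨(d | ⟨i, d, j⟩), hx⟩
    · cases d
      · exact SimpleGraph.Reachable.refl _
      · exact hb
    · cases d
      · exact st _ _ _ _ (by simp [adj])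
      · exact (st _ (Sum.inl true) hx (by simp) (by simp [adj])).trans hb

lemma exists_rank {V : Type} [Fintype V] (le : LinearOrder V) :
    ∃ f : V → ℕ, ∀ a b, le.lt a b → f a < f b := by
  classical
  refine ⟨fun a => (Finset.univ.filter (fun x => x < a)).card, fun a b h => ?_⟩
  apply Finset.card_lt_card
  refine ⟨fun x hx => ?_, fun hx => ?_⟩
  · simp only [Finset.mem_filter, Finset.mem_univ, true_and] at hx ⊢
    exact lt_trans hx h
  · have : a ∈ Finset.univ.filter (fun x => x < a) := hx (by simpa using h)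
    simp at this

lemma no_triple (m : ℕ) (s t : W m) (le : LinearOrder (W m)) (I O : SimpleGraph (W m)) :
    ¬ IsTriple (gr m) s t le I O := by
  rintro ⟨hI, hO, -, -, hd, hi, ho⟩
  obtain ⟨f, hf⟩ := exists_rank le
  have hex : ∃ i : Fin (m + 3), (∀ x, s ≠ Sum.inr (i, x)) ∧ (∀ x, t ≠ Sum.inr (i, x)) := by
    let p : W m → Fin (m + 3) := fun x => Sum.elim (fun _ => 0) (fun y => y.1) x
    have : ∃ i : Fin (m + 3), i ∉ ({p s, p t} : Finset (Fin (m + 3))) := by
      by_contra hn
      push Not at hn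
      have h1 := Finset.card_le_card (s := Finset.univ) (fun i _ => hn i)
      have h2 : ({p s, p t} : Finset (Fin (m + 3))).card ≤ 2 := Finset.card_le_two
      simp only [Finset.card_univ, Fintype.card_fin] at h1
      omega
    obtain ⟨i, hi⟩ := this
    simp only [Finset.mem_insert, Finset.mem_singleton, not_or] at hi
    refine ⟨i, fun x hx => hi.1 ?_, fun x hx => hi.2 ?_⟩
    · simp [p, hx]
    · simp [p, hx]
  obtain ⟨i, hs, ht⟩ := hex
  have key : ∀ c : Bool,
      (I.Adj (Sum.inr (i, c, 0)) (Sum.inr (i, !c, 0)) ∧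
        f (Sum.inr (i, c, 0)) < f (Sum.inr (i, !c, 0))) ∨
      (O.Adj (Sum.inr (i, c, 0)) (Sum.inr (i, !c, 0)) ∧
        f (Sum.inr (i, !c, 0)) < f (Sum.inr (i, c, 0))) := by
    intro c
    obtain ⟨a, -, ha⟩ := Finset.exists_max_image Finset.univ
      (fun j : Fin (m + 3) => f (Sum.inr (i, c, j))) Finset.univ_nonempty
    obtain ⟨b, -, hb⟩ := Finset.exists_min_image Finset.univ
      (fun j : Fin (m + 3) => f (Sum.inr (i, c, j))) Finset.univ_nonempty
    obtain ⟨w, hw, hlt⟩ := hi (Sum.inr (i, c, a)) (ht _).symm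
    obtain ⟨z, hz, hlt'⟩ := ho (Sum.inr (i, c, b)) (hs _).symm
    replace hlt := hf _ _ hlt
    replace hlt' := hf _ _ hlt'
    have hw' : adj m _ _ := hI hw
    have hz' : adj m _ _ := hO hz
    have hab : f (Sum.inr (i, c, b)) ≤ f (Sum.inr (i, c, a)) := ha b (Finset.mem_univ _)
    rcases w with d | ⟨i', d, j⟩
    · rcases z with d' | ⟨i'', d', j'⟩
      · simp only [adj] at hw' hz'
        subst hw'; subst hz'
        exact absurd (lt_of_lt_of_le hlt' hab) (not_lt.mpr (le_of_lt hlt))
      · simp only [adj] at hz'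
        obtain ⟨rfl, ⟨rfl, h3⟩ | ⟨h2, rfl, rfl⟩⟩ := hz'
        · exact absurd hlt' (not_lt.mpr (hb j' (Finset.mem_univ _)))
        · have : d' = !c := by cases c <;> cases d' <;> simp at h2 ⊢
          subst this
          exact Or.inr ⟨hz, hlt'⟩
    · simp only [adj] at hw'
      obtain ⟨rfl, ⟨rfl, h3⟩ | ⟨h2, rfl, rfl⟩⟩ := hw'
      · exact absurd hlt (not_lt.mpr (ha j (Finset.mem_univ _)))
      · have : d = !c := by cases c <;> cases d <;> simp at h2 ⊢
        subst this
        exact Or.inl ⟨hw, hlt⟩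
  rcases key true with ⟨h1, h2⟩ | ⟨h1, h2⟩ <;> rcases key false with ⟨h3, h4⟩ | ⟨h3, h4⟩
  · exact lt_asymm h2 h4
  · exact hd _ _ h1 h3.symm
  · exact hd _ _ h3 h1.symm
  · exact lt_asymm h2 h4

theorem result : ∀ L : ℕ, ∃ (V : Type) (_ : Fintype V) (G : SimpleGraph V),
    (3 ≤ Fintype.card V ∧ G.Connected ∧ ∀ v : V, (G.induce ({v}ᶜ : Set V)).Connected) ∧
    (∀ F : Finset (Sym2 V), F.card < L → (G.deleteEdges (F : Set (Sym2 V))).Connected) ∧
    ¬ ∃ (s t : V) (le : LinearOrder V) (I O : SimpleGraph V), s ≠ t ∧ IsTriple G s t le I O := by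
  intro L
  refine ⟨W L, inferInstance, gr L, ⟨?_, ?_, vert_conn L⟩, fun F hF => edge_conn L F (by omega), ?_⟩
  · simp only [W, Fintype.card_sum, Fintype.card_prod, Fintype.card_bool, Fintype.card_fin]
    nlinarith
  · simpa using edge_conn L ∅ (by simp)
  · rintro ⟨s, t, le, I, O, -, h⟩
    exact no_triple L s t le I O h

end Pool.Agent.Results.MP_bdb63f_co.NoTriple
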